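import Mathlib

/-!
# No tuple of commuting real matrices of size at least three makes every non-zero vector hypercyclic

For every `n ≥ 3` and every finite tuple (of any length `m`, in particular `m = n`) of pairwise
commuting real `n × n` matrices there is a non-zero vector whose orbit under the semigroup
generated by the tuple is not dense: the real and imaginary parts of a common complex eigenvector
span an invariant subspace of dimension at most two.
-/

set_option autoImplicit false

namespace Pool.Agent.Results.MP_336050_an.NoMinimalTuple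

open Module Matrix

/-- The orbit `{A_1^{k_1} ⋯ A_m^{k_m} x : k_1, …, k_m ≥ 0}` of the vector `x`. -/
def orbit {n m : ℕ} (A : Fin m → Matrix (Fin n) (Fin n) ℝ) (x : Fin n → ℝ) : Set (Fin n → ℝ) :=
  {y | ∃ k : Fin m → ℕ, y = (List.ofFn fun i => A i ^ k i).prod *ᵥ x}

/-- a commuting family of endomorphisms of a non-zero finite-dimensional complex vector space has a
common eigenvector -/
lemma exists_common {ι V : Type*} [AddCommGroup V] [Module ℂ V] [FiniteDimensional ℂ V]
    [Nontrivial V] (A : ι → Module.End ℂ V) (hA : ∀ i j, Commute (A i) (A j)) :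
    ∃ v : V, v ≠ 0 ∧ ∀ i, ∃ c : ℂ, A i v = c • v := by
  classical
  let P : ℕ → Prop := fun d => ∃ W : Submodule ℂ V, W ≠ ⊥ ∧ (∀ i, ∀ w ∈ W, A i w ∈ W) ∧
    finrank ℂ W = d
  have hP : ∃ d, P d := ⟨_, ⊤, top_ne_bot, fun _ _ _ => Submodule.mem_top, rfl⟩
  obtain ⟨W, hW0, hWA, hWd⟩ := Nat.find_spec hP
  have hscal : ∀ i, ∃ c : ℂ, ∀ w ∈ W, A i w = c • w := by
    intro i
    have : Nontrivial W := (Submodule.nontrivial_iff_ne_bot).2 hW0
    let B : Module.End ℂ W := (A i).restrict (hWA i)
    obtain ⟨c, hc⟩ := Module.End.exists_eigenvalue B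
    obtain ⟨w, hw⟩ := hc.exists_hasEigenvector
    refine ⟨c, ?_⟩
    -- the eigenspace inside `W`
    let W' : Submodule ℂ V := W ⊓ LinearMap.ker (A i - c • (1 : Module.End ℂ V))
    have hW'0 : W' ≠ ⊥ := by
      rw [Submodule.ne_bot_iff]
      refine ⟨w, ⟨w.2, ?_⟩, ?_⟩
      · rw [SetLike.mem_coe, LinearMap.mem_ker, LinearMap.sub_apply, LinearMap.smul_apply,
          Module.End.one_apply, sub_eq_zero]
        have h1 := hw.apply_eq_smul
        have h2 := congrArg (Subtype.val) h1
        simpa [B] using h2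
      · intro h
        exact hw.2 (Subtype.ext h)
    have hW'A : ∀ j, ∀ v ∈ W', A j v ∈ W' := by
      rintro j v ⟨hv1, hv2⟩
      refine ⟨hWA j v hv1, ?_⟩
      have hv2' : A i v = c • v := by
        have := LinearMap.mem_ker.1 hv2
        rwa [LinearMap.sub_apply, LinearMap.smul_apply, Module.End.one_apply, sub_eq_zero] at this
      rw [SetLike.mem_coe, LinearMap.mem_ker, LinearMap.sub_apply, LinearMap.smul_apply,
        Module.End.one_apply, sub_eq_zero]
      have h3 : A i (A j v) = A j (A i v) := by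
        have := congrArg (fun f : Module.End ℂ V => f v) (hA i j).eq
        simpa [Module.End.mul_apply] using this
      rw [h3, hv2', map_smul]
    have hle : Nat.find hP ≤ finrank ℂ W' := Nat.find_min' hP ⟨W', hW'0, hW'A, rfl⟩
    have heq : W' = W := Submodule.eq_of_le_of_finrank_le inf_le_left (by rw [hWd]; exact hle)
    intro v hv
    have hv' : v ∈ W' := heq ▸ hv
    have := LinearMap.mem_ker.1 hv'.2
    rwa [LinearMap.sub_apply, LinearMap.smul_apply, Module.End.one_apply, sub_eq_zero] at this
  obtain ⟨v, hv, hv0⟩ := (Submodule.ne_bot_iff _).1 hW0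
  exact ⟨v, hv0, fun i => (hscal i).imp fun c hc => hc v hv⟩

/-- A proper subspace which is invariant under all the matrices contains the orbits of its
vectors, which are therefore not dense. -/
lemma not_dense {n m : ℕ} (A : Fin m → Matrix (Fin n) (Fin n) ℝ) (W : Submodule ℝ (Fin n → ℝ))
    (hW : W ≠ ⊤) (hA : ∀ i, ∀ w ∈ W, A i *ᵥ w ∈ W) (x : Fin n → ℝ) (hx : x ∈ W) :
    orbit A x ⊆ W ∧ ¬ Dense (orbit A x) := by
  have hpow : ∀ i (k : ℕ), ∀ w ∈ W, (A i ^ k) *ᵥ w ∈ W := by
    intro i k
    induction k with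
    | zero => intro w hw; simpa using hw
    | succ k ih =>
      intro w hw
      rw [pow_succ, ← Matrix.mulVec_mulVec]
      exact ih _ (hA i w hw)
  have hprod : ∀ l : List (Matrix (Fin n) (Fin n) ℝ), (∀ B ∈ l, ∀ w ∈ W, B *ᵥ w ∈ W) →
      ∀ w ∈ W, l.prod *ᵥ w ∈ W := by
    intro l
    induction l with
    | nil => intro _ w hw; simpa using hw
    | cons B l ih =>
      intro h w hw
      rw [List.prod_cons, ← Matrix.mulVec_mulVec]
      exact h B (List.mem_cons_self ..) _ (ih (fun C hC => h C (List.mem_cons_of_mem _ hC)) w hw)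
  have hsub : orbit A x ⊆ W := by
    rintro y ⟨k, rfl⟩
    refine hprod _ ?_ x hx
    intro B hB
    rw [List.mem_ofFn] at hB
    obtain ⟨i, rfl⟩ := hB
    exact hpow i (k i)
  refine ⟨hsub, fun hd => hW ?_⟩
  have hcl : IsClosed (W : Set (Fin n → ℝ)) := Submodule.closed_of_finiteDimensional W
  have h1 : closure (orbit A x) ⊆ (W : Set (Fin n → ℝ)) := hcl.closure_subset_iff.2 hsub
  rw [hd.closure_eq] at h1
  exact Submodule.eq_top_iff'.2 fun y => h1 (Set.mem_univ y)

/-- **Theorem.** Let `n ≥ 3` and let `A_1, …, A_m` be pairwise commuting real `n × n` matrices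
(`m` is arbitrary; `m = n` is the case of the question). Then there is a non-zero vector `x` whose
orbit is contained in a subspace of dimension at most two and is not dense in `ℝ^n`; hence there
is no `n`-tuple of commuting matrices for which every non-zero vector is hypercyclic. -/
theorem result (n : ℕ) (hn : 3 ≤ n) :
    (∀ (m : ℕ) (A : Fin m → Matrix (Fin n) (Fin n) ℝ), (∀ i j, A i * A j = A j * A i) →
      ∃ x : Fin n → ℝ, x ≠ 0 ∧ ¬ Dense (orbit A x) ∧
        ∃ W : Submodule ℝ (Fin n → ℝ), finrank ℝ W ≤ 2 ∧ orbit A x ⊆ W) ∧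
    ¬ ∃ A : Fin n → Matrix (Fin n) (Fin n) ℝ, (∀ i j, A i * A j = A j * A i) ∧
      ∀ x : Fin n → ℝ, x ≠ 0 → Dense (orbit A x) := by
  have main : ∀ (m : ℕ) (A : Fin m → Matrix (Fin n) (Fin n) ℝ), (∀ i j, A i * A j = A j * A i) →
      ∃ x : Fin n → ℝ, x ≠ 0 ∧ ¬ Dense (orbit A x) ∧
        ∃ W : Submodule ℝ (Fin n → ℝ), finrank ℝ W ≤ 2 ∧ orbit A x ⊆ W := by
    intro m A hA
    have : Nonempty (Fin n) := ⟨⟨0, by omega⟩⟩
    let B : Fin m → Module.End ℂ (Fin n → ℂ) := fun i =>
      Matrix.toLin' ((A i).map (algebraMap ℝ ℂ))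
    have hB : ∀ i j, Commute (B i) (B j) := by
      intro i j
      show B i * B j = B j * B i
      simp only [B, Module.End.mul_eq_comp, ← Matrix.toLin'_mul, ← Matrix.map_mul, hA i j]
    obtain ⟨v, hv0, hv⟩ := exists_common B hB
    choose c hc using hv
    let a : Fin n → ℝ := fun j => (v j).re
    let b : Fin n → ℝ := fun j => (v j).im
    have hre : ∀ i, A i *ᵥ a = (c i).re • a - (c i).im • b := by
      intro i
      ext j
      have h1 := congrArg Complex.re (congrFun (hc i) j)
      simp only [B, Matrix.toLin'_apply, Matrix.mulVec, dotProduct, Matrix.map_apply,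
        Complex.coe_algebraMap, Complex.re_sum, Pi.smul_apply, smul_eq_mul,
        Complex.mul_re] at h1
      simpa [a, b, Matrix.mulVec, dotProduct] using h1
    have him : ∀ i, A i *ᵥ b = (c i).re • b + (c i).im • a := by
      intro i
      ext j
      have h1 := congrArg Complex.im (congrFun (hc i) j)
      simp only [B, Matrix.toLin'_apply, Matrix.mulVec, dotProduct, Matrix.map_apply,
        Complex.coe_algebraMap, Complex.im_sum, Pi.smul_apply, smul_eq_mul,
        Complex.mul_im] at h1
      simpa [a, b, Matrix.mulVec, dotProduct] using h1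
    let W : Submodule ℝ (Fin n → ℝ) := Submodule.span ℝ {a, b}
    have haW : a ∈ W := Submodule.subset_span (by simp)
    have hbW : b ∈ W := Submodule.subset_span (by simp)
    have hWA : ∀ i, ∀ w ∈ W, A i *ᵥ w ∈ W := by
      intro i w hw
      obtain ⟨s, t, rfl⟩ := Submodule.mem_span_pair.1 hw
      rw [Matrix.mulVec_add, Matrix.mulVec_smul, Matrix.mulVec_smul, hre, him]
      exact W.add_mem (W.smul_mem _ (W.sub_mem (W.smul_mem _ haW) (W.smul_mem _ hbW)))
        (W.smul_mem _ (W.add_mem (W.smul_mem _ hbW) (W.smul_mem _ haW)))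
    have hdim : finrank ℝ W ≤ 2 := by
      have h1 := finrank_span_finset_le_card (R := ℝ) ({a, b} : Finset (Fin n → ℝ))
      have h2 : (({a, b} : Finset (Fin n → ℝ)) : Set (Fin n → ℝ)) = {a, b} := by simp
      rw [Set.finrank, h2] at h1
      exact h1.trans Finset.card_le_two
    have hWtop : W ≠ ⊤ := by
      intro h
      rw [h, finrank_top, Module.finrank_fin_fun] at hdim
      omega
    have hne : a ≠ 0 ∨ b ≠ 0 := by
      by_contra hcon
      push Not at hcon
      apply hv0
      ext j
      apply Complex.ext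
      · exact congrFun hcon.1 j
      · exact congrFun hcon.2 j
    rcases hne with h | h
    · obtain ⟨h1, h2⟩ := not_dense A W hWtop hWA a haW
      exact ⟨a, h, h2, W, hdim, h1⟩
    · obtain ⟨h1, h2⟩ := not_dense A W hWtop hWA b hbW
      exact ⟨b, h, h2, W, hdim, h1⟩
  refine ⟨main, ?_⟩
  rintro ⟨A, hA, hd⟩
  obtain ⟨x, hx, hx2, _⟩ := main n A hA
  exact hx2 (hd x hx)

end Pool.Agent.Results.MP_336050_an.NoMinimalTuple
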